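import Mathlib
import Pool.Agent.helper81.PJ.Spec

set_option autoImplicit false

open Finset Pool.Agent.PY2

namespace Pool.Agent.PJ

/-- cutting a set into pieces with between `m` and `2m` elements -/
theorem CUT_ind {α : Type*} [DecidableEq α] (f : Finset α → ℝ) (m : ℕ) (hm : 1 ≤ m) (c : ℝ) (U : Finset α)
    (hsub : ∀ S T : Finset α, Disjoint S T → f (S ∪ T) ≤ f S + f T)
    (h : ∀ S ⊆ U, m ≤ S.card → S.card ≤ 2 * m → f S ≤ c * S.card) :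
    ∀ (k : ℕ) (S : Finset α), S ⊆ U → S.card ≤ k → m ≤ S.card → f S ≤ c * S.card := by
  intro k
  induction k with
  | zero =>
    intro S _ hk hS
    omega
  | succ k ih =>
    intro S hSU hk hS
    by_cases h2 : S.card ≤ 2 * m
    · exact h S hSU hS h2
    · push Not at h2
      obtain ⟨T, hTS, hT⟩ := Finset.exists_subset_card_eq hS
      have hd : Disjoint T (S \ T) := Finset.disjoint_sdiff
      have hu : T ∪ (S \ T) = S := Finset.union_sdiff_of_subset hTS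
      have hc : (S \ T).card = S.card - m := by rw [Finset.card_sdiff_of_subset hTS, hT]
      have h3 : f S ≤ f T + f (S \ T) := by
        have := hsub T (S \ T) hd
        rwa [hu] at this
      have h4 : f T ≤ c * T.card := h T (hTS.trans hSU) (by omega) (by omega)
      have h5 : f (S \ T) ≤ c * (S \ T).card :=
        ih (S \ T) (Finset.sdiff_subset.trans hSU) (by omega) (by omega)
      have h6 : (S.card : ℝ) = T.card + (S \ T).card := by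
        have : S.card = T.card + (S \ T).card := by omega
        exact_mod_cast this
      calc f S ≤ c * T.card + c * (S \ T).card := by linarith
        _ = c * S.card := by rw [h6]; ring

theorem CUT_ge (p N : ℕ) (ε X Y : ℝ) (hp : 1 ≤ p) (hε : 0 < ε) (hN : 1 ≤ N) (hX : 0 < X) (hY : 0 < Y)
    (hXN : X ≤ N) (hXp : X ≤ (p : ℝ) ^ (1 / 2 : ℝ)) (hYp : Y ≤ (p : ℝ) ^ (1 / 2 : ℝ))
    (h : (N : ℝ) ^ 8 * (p : ℝ) ^ (7 / 3 + ε) ≤ X ^ 11 * Y ^ 3) : 1 ≤ X ∧ 1 ≤ Y := by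
  have hp1 : (1 : ℝ) ≤ p := by exact_mod_cast hp
  have hN1 : (1 : ℝ) ≤ N := by exact_mod_cast hN
  have hq : ((p : ℝ) ^ (1 / 2 : ℝ)) ^ 3 ≤ (p : ℝ) ^ (7 / 3 + ε) := by
    rw [← Real.rpow_natCast, ← Real.rpow_mul (by linarith)]
    apply Real.rpow_le_rpow_of_exponent_le hp1
    push_cast
    linarith
  have hX3 : X ^ 3 ≤ (p : ℝ) ^ (7 / 3 + ε) := (pow_le_pow_left₀ hX.le hXp 3).trans hq
  have hY3 : Y ^ 3 ≤ (p : ℝ) ^ (7 / 3 + ε) := (pow_le_pow_left₀ hY.le hYp 3).trans hq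
  have hX8 : X ^ 8 ≤ (N : ℝ) ^ 8 := pow_le_pow_left₀ hX.le hXN 8
  have hN8 : (1 : ℝ) ≤ (N : ℝ) ^ 8 := one_le_pow₀ hN1
  have hP0 : 0 < (p : ℝ) ^ (7 / 3 + ε) := Real.rpow_pos_of_pos (by linarith) _
  constructor
  · by_contra hlt
    push Not at hlt
    have h1 : X ^ 11 < 1 := pow_lt_one₀ hX.le hlt (by norm_num)
    have h2 : X ^ 11 * Y ^ 3 < 1 * Y ^ 3 := mul_lt_mul_of_pos_right h1 (pow_pos hY 3)
    have h3 : (p : ℝ) ^ (7 / 3 + ε) ≤ (N : ℝ) ^ 8 * (p : ℝ) ^ (7 / 3 + ε) := by nlinarith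
    linarith
  · by_contra hlt
    push Not at hlt
    have h1 : Y ^ 3 < 1 := pow_lt_one₀ hY.le hlt (by norm_num)
    have h2 : X ^ 11 * Y ^ 3 < X ^ 11 * 1 := mul_lt_mul_of_pos_left h1 (pow_pos hX 11)
    have h3 : X ^ 11 = X ^ 8 * X ^ 3 := by ring
    have h4 : X ^ 8 * X ^ 3 ≤ (N : ℝ) ^ 8 * (p : ℝ) ^ (7 / 3 + ε) :=
      mul_le_mul hX8 hX3 (by positivity) (by positivity)
    linarith

theorem CUT_ceil (X : ℝ) (hX : 1 ≤ X) : 1 ≤ ⌈X⌉₊ ∧ X ≤ (⌈X⌉₊ : ℝ) ∧ (⌈X⌉₊ : ℝ) ≤ 2 * X := by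
  refine ⟨?_, Nat.le_ceil X, ?_⟩
  · exact Nat.one_le_iff_ne_zero.mpr (by
      have : 0 < ⌈X⌉₊ := Nat.ceil_pos.mpr (by linarith)
      omega)
  · have := Nat.ceil_lt_add_one (show 0 ≤ X by linarith)
    linarith

theorem CUT (hCORE : CORE_stmt) : CUT_stmt := by
  intro ε hε hε1
  obtain ⟨δ, hδ, p₀, hc⟩ := hCORE ε hε hε1
  refine ⟨δ, hδ, p₀, ?_⟩
  intro p _ hp N X Y A B hA hN hX hY hXA hYB hXp hYp h χ hχ β hβ
  have hpp : p.Prime := Fact.out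
  have hp1 : 1 ≤ p := hpp.one_lt.le
  have hN1 : 1 ≤ N := by
    have h1 : (0 : ℝ) < (p : ℝ) ^ (1 / 3 + ε) := Real.rpow_pos_of_pos (by exact_mod_cast hpp.pos) _
    have h2 : (0 : ℝ) < N := lt_of_lt_of_le h1 hN
    exact_mod_cast h2
  have hAN : A.card ≤ N := by
    have := Finset.card_le_card hA
    simpa using this
  have hXN : X ≤ N := hXA.trans (by exact_mod_cast hAN)
  obtain ⟨hX1, hY1⟩ := CUT_ge p N ε X Y hp1 hε hN1 hX hY hXN hXp hYp h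
  obtain ⟨hx1, hx2, hx3⟩ := CUT_ceil X hX1
  obtain ⟨hy1, hy2, hy3⟩ := CUT_ceil Y hY1
  -- cut B for given A
  have hB : ∀ A' ⊆ A, ⌈X⌉₊ ≤ A'.card → A'.card ≤ 2 * ⌈X⌉₊ →
      ∑ n ∈ A', ‖∑ b ∈ B, β b * χ ((n : ZMod p) + b)‖ ≤ (p : ℝ) ^ (-δ) * A'.card * B.card := by
    intro A' hA' hA1 hA2
    refine CUT_ind (fun S => ∑ n ∈ A', ‖∑ b ∈ S, β b * χ ((n : ZMod p) + b)‖) ⌈Y⌉₊ hy1
      ((p : ℝ) ^ (-δ) * A'.card) B ?_ ?_ B.card B (Finset.Subset.refl B) le_rfl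
      (Nat.ceil_le.mpr hYB)
    · intro S T hST
      rw [← Finset.sum_add_distrib]
      apply Finset.sum_le_sum
      intro n _
      rw [Finset.sum_union hST]
      exact norm_add_le _ _
    · intro S hS hS1 hS2
      have e1 : X ≤ A'.card := hx2.trans (by exact_mod_cast hA1)
      have e2 : (A'.card : ℝ) ≤ 4 * X := by
        have : (A'.card : ℝ) ≤ 2 * (⌈X⌉₊ : ℝ) := by exact_mod_cast hA2
        linarith
      have e3 : Y ≤ S.card := hy2.trans (by exact_mod_cast hS1)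
      have e4 : (S.card : ℝ) ≤ 4 * Y := by
        have : (S.card : ℝ) ≤ 2 * (⌈Y⌉₊ : ℝ) := by exact_mod_cast hS2
        linarith
      have := hc p hp N X Y A' S (hA'.trans hA) hN hX hY e1 e2 e3 e4 hXp hYp h χ hχ β hβ
      rw [mul_assoc]
      exact this
  have hfin := CUT_ind (fun S : Finset ℕ => ∑ n ∈ S, ‖∑ b ∈ B, β b * χ ((n : ZMod p) + b)‖) ⌈X⌉₊ hx1
      ((p : ℝ) ^ (-δ) * B.card) A ?_ ?_ A.card A (Finset.Subset.refl A) le_rfl
      (Nat.ceil_le.mpr hXA)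
  · calc ∑ n ∈ A, ‖∑ b ∈ B, β b * χ ((n : ZMod p) + b)‖ ≤ (p : ℝ) ^ (-δ) * B.card * A.card := hfin
      _ = (p : ℝ) ^ (-δ) * (A.card * B.card) := by ring
  · intro S T hST
    rw [Finset.sum_union hST]
  · intro S hS hS1 hS2
    calc ∑ n ∈ S, ‖∑ b ∈ B, β b * χ ((n : ZMod p) + b)‖ ≤ (p : ℝ) ^ (-δ) * S.card * B.card := hB S hS hS1 hS2
      _ = (p : ℝ) ^ (-δ) * B.card * S.card := by ring

end Pool.Agent.PJ
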